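import Pool.Agent.H752.PL.Stubs3

/-! M11: numbers, exact form. -/

namespace Pool.Agent.H752.PL

open Pool.Agent.NPC Pool.Agent.H620R2.Gauge Finset H568R2 Pool.Agent.H752.GE Filter

namespace M11x

theorem poly_bound (w : Polynomial ℕ) : ∃ a : ℕ, ∀ B : ℕ, w.eval B ≤ 2 ^ (a * (B + 1)) := by
  induction w using Polynomial.induction_on' with
  | add p q hp hq =>
    obtain ⟨a, ha⟩ := hp
    obtain ⟨b, hb⟩ := hq
    refine ⟨a + b + 1, fun B => ?_⟩
    rw [Polynomial.eval_add]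
    have h1 : 2 ^ (a * (B + 1)) ≤ 2 ^ ((a + b) * (B + 1)) :=
      Nat.pow_le_pow_right (by norm_num) (Nat.mul_le_mul_right _ (by omega))
    have h2 : 2 ^ (b * (B + 1)) ≤ 2 ^ ((a + b) * (B + 1)) :=
      Nat.pow_le_pow_right (by norm_num) (Nat.mul_le_mul_right _ (by omega))
    have h3 : 2 ^ ((a + b) * (B + 1)) * 2 ≤ 2 ^ ((a + b + 1) * (B + 1)) := by
      rw [← pow_succ]
      exact Nat.pow_le_pow_right (by norm_num) (by nlinarith)
    have := ha B
    have := hb B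
    omega
  | monomial n c =>
    refine ⟨c + n, fun B => ?_⟩
    rw [Polynomial.eval_monomial]
    have h1 : c ≤ 2 ^ (c * (B + 1)) := by
      calc c ≤ 2 ^ c := Nat.lt_two_pow_self.le
        _ ≤ 2 ^ (c * (B + 1)) := Nat.pow_le_pow_right (by norm_num) (by nlinarith)
    have h2 : B ^ n ≤ 2 ^ (n * (B + 1)) := by
      calc B ^ n ≤ (2 ^ (B + 1)) ^ n :=
            Nat.pow_le_pow_left ((Nat.lt_two_pow_self.le).trans
              (Nat.pow_le_pow_right (by norm_num) (by omega))) n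
        _ = 2 ^ (n * (B + 1)) := by rw [← pow_mul, mul_comm]
    calc c * B ^ n ≤ 2 ^ (c * (B + 1)) * 2 ^ (n * (B + 1)) := Nat.mul_le_mul h1 h2
      _ = 2 ^ ((c + n) * (B + 1)) := by rw [← pow_add]; ring_nf

theorem eval_mono (w : Polynomial ℕ) {a b : ℕ} (h : a ≤ b) : w.eval a ≤ w.eval b := by
  induction w using Polynomial.induction_on' with
  | add p q hp hq => rw [Polynomial.eval_add, Polynomial.eval_add]; exact Nat.add_le_add hp hq
  | monomial n c =>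
    rw [Polynomial.eval_monomial, Polynomial.eval_monomial]
    exact Nat.mul_le_mul_left _ (Nat.pow_le_pow_left h n)

theorem log_small (c k : ℕ) : ∃ n0 : ℕ, ∀ n ≥ n0, c * (Nat.log 2 n + 1) ^ k + 1 + 3 ≤ n := by
  have h1 : Tendsto (fun t : ℕ => (t : ℝ) ^ k / 2 ^ t) atTop (nhds 0) :=
    tendsto_pow_const_div_const_pow_of_one_lt k (by norm_num)
  have h2 : ∀ᶠ t : ℕ in atTop, (t : ℝ) ^ k / 2 ^ t < 1 / (4 * ((c : ℝ) + 1)) :=
    h1.eventually_lt_const (by positivity)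
  obtain ⟨t0, ht0⟩ := eventually_atTop.1 h2
  refine ⟨2 ^ (t0 + 4), fun n hn => ?_⟩
  have hn0 : n ≠ 0 := by
    have : 0 < 2 ^ (t0 + 4) := by positivity
    omega
  set t := Nat.log 2 n with ht
  have ht1 : t0 + 4 ≤ t := by
    rw [ht]
    exact Nat.le_log_of_pow_le (by norm_num) hn
  have h3 := ht0 (t + 1) (by omega)
  have hp : (0 : ℝ) < 2 ^ (t + 1) := by positivity
  rw [div_lt_div_iff₀ hp (by positivity), one_mul] at h3
  have h4 : (c : ℝ) * ((t : ℝ) + 1) ^ k ≤ 2 ^ (t + 1) / 4 := by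
    have h5 : (0 : ℝ) ≤ ((t : ℝ) + 1) ^ k := by positivity
    push_cast at h3
    nlinarith
  have h5 : (c * (t + 1) ^ k + 1 + 3 : ℕ) ≤ 2 ^ t := by
    have h6 : ((c * (t + 1) ^ k + 1 + 3 : ℕ) : ℝ) ≤ ((2 ^ t : ℕ) : ℝ) := by
      push_cast
      have h7 : (2 : ℝ) ^ (t + 1) = 2 * 2 ^ t := by rw [pow_succ]; ring
      have h8 : (16 : ℝ) ≤ 2 ^ t := by
        calc (16 : ℝ) = 2 ^ 4 := by norm_num
          _ ≤ 2 ^ t := pow_le_pow_right₀ (by norm_num) (by omega)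
      rw [h7] at h4
      linarith
    exact_mod_cast h6
  exact h5.trans (Nat.pow_log_le_self 2 hn0)

/-- the exponent -/
def Ex (c k : ℕ) (w : Polynomial ℕ) (n : ℕ) : ℕ :=
  max (3 * n + 3)
    (2 ^ (c * (Nat.log 2 n + 1) ^ k + 1) * w.eval (c * (Nat.log 2 n + 1) ^ k) + 1)

theorem Ex_bound (c k : ℕ) (hk : 1 ≤ k) (w : Polynomial ℕ) : ∃ C : ℕ, 1 ≤ C ∧ ∀ n : ℕ,
    Ex c k w n ≤ 2 ^ (C * (Nat.log 2 n + 1) ^ k) := by
  obtain ⟨a, ha⟩ := poly_bound w
  refine ⟨(a + 1) * (c + 1) + 4, by omega, fun n => ?_⟩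
  set L := Nat.log 2 n + 1 with hL
  have hL1 : 1 ≤ L := by omega
  have hLk : L ≤ L ^ k := by
    calc L = L ^ 1 := (pow_one L).symm
      _ ≤ L ^ k := Nat.pow_le_pow_right hL1 hk
  have hLk1 : 1 ≤ L ^ k := hL1.trans hLk
  have hn : n < 2 ^ L := Nat.lt_pow_succ_log_self (by norm_num) n
  have hprod : 0 ≤ (a + 1) * (c + 1) * L ^ k := Nat.zero_le _
  refine max_le ?_ ?_
  · have h1 : 3 * n + 3 ≤ 2 ^ (L + 2) := by
      rw [pow_add]; omega
    refine h1.trans (Nat.pow_le_pow_right (by norm_num) ?_)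
    nlinarith
  · set B := c * L ^ k with hB
    have h1 := ha B
    have h2 : 2 ^ (B + 1) * w.eval B ≤ 2 ^ ((a + 1) * (B + 1)) := by
      calc 2 ^ (B + 1) * w.eval B ≤ 2 ^ (B + 1) * 2 ^ (a * (B + 1)) := Nat.mul_le_mul_left _ h1
        _ = 2 ^ ((a + 1) * (B + 1)) := by rw [← pow_add]; ring_nf
    have h3 : 2 ^ ((a + 1) * (B + 1)) + 1 ≤ 2 ^ ((a + 1) * (B + 1) + 1) := by
      rw [pow_succ]
      have : 1 ≤ 2 ^ ((a + 1) * (B + 1)) := Nat.one_le_two_pow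
      omega
    have h4 : B + 1 ≤ (c + 1) * L ^ k := by rw [hB]; nlinarith
    have h5 : (a + 1) * (B + 1) + 1 ≤ ((a + 1) * (c + 1) + 4) * L ^ k := by
      have h6 : (a + 1) * (B + 1) ≤ (a + 1) * ((c + 1) * L ^ k) := Nat.mul_le_mul_left _ h4
      nlinarith
    have h7 := Nat.pow_le_pow_right (n := 2) (by norm_num) h5
    omega

end M11x

open M11x in
theorem t_asyS : St_asyS := by
  intro f k hk hf c w δ hδ
  obtain ⟨C, hC1, hC⟩ := Ex_bound c k hk w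
  obtain ⟨n1, hn1⟩ := log_small c k
  obtain ⟨n2, hn2⟩ := exists_pow_lt_of_lt_one hδ (show (1 / 4 : ℝ) < 1 by norm_num)
  have hC0 : (0 : ℝ) < C := by exact_mod_cast hC1
  have hk0 : (0 : ℝ) < k := by exact_mod_cast hk
  set n0 : ℕ := n1 + n2 + 6 with hn0
  set ε : ℝ := 1 / (4 ^ k * C) with hε
  have hε0 : 0 < ε := by positivity
  obtain ⟨N, hN, hfN⟩ := (hf ε hε0).forall_exists_of_atTop (2 ^ (Ex c k w n0))
  -- the greatest n
  have hEx_ge : ∀ n, 3 * n + 3 ≤ Ex c k w n := fun n => le_max_left _ _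
  have hex : ∃ n, n0 ≤ n ∧ 2 ^ (Ex c k w n) ≤ N ∧ N < 2 ^ (Ex c k w (n + 1)) := by
    by_contra hno
    push Not at hno
    have hall : ∀ n, n0 ≤ n → 2 ^ (Ex c k w n) ≤ N := by
      intro n hn
      induction n, hn using Nat.le_induction with
      | base => exact hN
      | succ n hn ih => exact hno n hn ih
    have h1 := hall (n0 + N) (by omega)
    have h2 : N < 2 ^ (Ex c k w (n0 + N)) := by
      calc N < 2 ^ N := Nat.lt_two_pow_self
        _ ≤ 2 ^ (Ex c k w (n0 + N)) :=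
          Nat.pow_le_pow_right (by norm_num) ((by omega : N ≤ 3 * (n0 + N) + 3).trans (hEx_ge _))
    omega
  obtain ⟨n, hnn0, hn1', hn2'⟩ := hex
  refine ⟨n, N, by omega, hn1 n (by omega), ?_, ?_, ?_⟩
  · exact (Nat.pow_le_pow_right (by norm_num) (hEx_ge n)).trans hn1'
  · exact (Nat.pow_le_pow_right (by norm_num) (le_max_right _ _)).trans hn1'
  -- the main estimate
  set L := Nat.log 2 (n + 1) + 1 with hL
  have hEL : Ex c k w (n + 1) ≤ 2 ^ (C * L ^ k) := hC (n + 1)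
  have hN4 : 4 ≤ N := by
    have h1 : 2 ^ 2 ≤ 2 ^ (Ex c k w n) :=
      Nat.pow_le_pow_right (by norm_num) ((by omega : 2 ≤ 3 * n + 3).trans (hEx_ge n))
    omega
  have hNpos : (0 : ℝ) < N := by exact_mod_cast (by omega : 0 < N)
  have hlogN : Real.logb 2 N ≤ 2 ^ (C * L ^ k) := by
    rw [Real.logb_le_iff_le_rpow (by norm_num) hNpos]
    have h1 : N ≤ 2 ^ (2 ^ (C * L ^ k)) :=
      hn2'.le.trans (Nat.pow_le_pow_right (by norm_num) hEL)
    have h2 : (N : ℝ) ≤ (2 : ℝ) ^ (2 ^ (C * L ^ k) : ℕ) := by exact_mod_cast h1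
    refine h2.trans (le_of_eq ?_)
    rw [← Real.rpow_natCast]
    push_cast
    rfl
  have hlogN2 : 2 ≤ Real.logb 2 N := by
    rw [Real.le_logb_iff_rpow_le (by norm_num) hNpos]
    have h1 : ((2 : ℝ) ^ (2 : ℝ)) = 4 := by
      rw [show (2 : ℝ) = ((2 : ℕ) : ℝ) by norm_num, Real.rpow_natCast]; norm_num
    rw [h1]
    exact_mod_cast hN4
  have hll : Real.logb 2 (Real.logb 2 N) ≤ C * (L : ℝ) ^ k := by
    rw [Real.logb_le_iff_le_rpow (by norm_num) (by linarith)]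
    refine hlogN.trans (le_of_eq ?_)
    rw [← Real.rpow_natCast]
    push_cast
    rfl
  have hll0 : 0 ≤ Real.logb 2 (Real.logb 2 N) := Real.logb_nonneg (by norm_num) (by linarith)
  have hexp : (ε * Real.logb 2 (Real.logb 2 N)) ^ (1 / k : ℝ) ≤ (L : ℝ) / 4 := by
    have h1 : ε * Real.logb 2 (Real.logb 2 N) ≤ ((L : ℝ) / 4) ^ k := by
      calc ε * Real.logb 2 (Real.logb 2 N) ≤ ε * (C * (L : ℝ) ^ k) :=
            mul_le_mul_of_nonneg_left hll hε0.le
        _ = ((L : ℝ) / 4) ^ k := by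
          rw [hε, div_pow]
          field_simp
    calc (ε * Real.logb 2 (Real.logb 2 N)) ^ (1 / k : ℝ) ≤ (((L : ℝ) / 4) ^ k) ^ (1 / k : ℝ) :=
          Real.rpow_le_rpow (by positivity) h1 (by positivity)
      _ = (L : ℝ) / 4 := by
        rw [← Real.rpow_natCast, ← Real.rpow_mul (by positivity), mul_one_div_cancel hk0.ne',
          Real.rpow_one]
  have hn5 : 6 ≤ n := by omega
  have h2L : (2 : ℝ) ^ ((L : ℝ) / 4) ≤ (n : ℝ) - 3 := by
    have h1 : 2 ^ L ≤ 2 * (n + 1) := by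
      rw [hL, pow_succ]
      have := Nat.pow_log_le_self 2 (show n + 1 ≠ 0 by omega)
      omega
    have h2 : (2 : ℝ) ^ L ≤ ((n : ℝ) - 3) ^ 4 := by
      have h3 : (2 : ℝ) ^ L ≤ 2 * ((n : ℝ) + 1) := by exact_mod_cast h1
      have h4 : (6 : ℝ) ≤ n := by exact_mod_cast hn5
      have h5 : (n : ℝ) = ((n : ℝ) - 3) + 3 := by ring
      set m : ℝ := (n : ℝ) - 3 with hm
      have hm3 : 3 ≤ m := by rw [hm]; linarith
      have h6 : 2 * ((n : ℝ) + 1) = 2 * (m + 4) := by rw [hm]; ring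
      have h7 : 2 * (m + 4) ≤ m ^ 4 := by
        have h8 : 27 * m ≤ m ^ 4 := by
          have : 27 ≤ m ^ 3 := by nlinarith [sq_nonneg m]
          nlinarith
        linarith
      linarith
    have h3 : (0 : ℝ) ≤ (n : ℝ) - 3 := by
      have h4 : (6 : ℝ) ≤ n := by exact_mod_cast hn5
      linarith
    calc (2 : ℝ) ^ ((L : ℝ) / 4) = ((2 : ℝ) ^ L) ^ (1 / 4 : ℝ) := by
          rw [← Real.rpow_natCast, ← Real.rpow_mul (by norm_num)]
          congr 1
          ring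
      _ ≤ (((n : ℝ) - 3) ^ 4) ^ (1 / 4 : ℝ) :=
        Real.rpow_le_rpow (by positivity) h2 (by norm_num)
      _ = (n : ℝ) - 3 := by
        rw [← Real.rpow_natCast, ← Real.rpow_mul h3]
        norm_num
  have hfn : f N ≤ (2 : ℝ) ^ (n - 3) := by
    refine hfN.trans ?_
    calc (2 : ℝ) ^ (2 : ℝ) ^ (ε * Real.logb 2 (Real.logb 2 N)) ^ (1 / k : ℝ)
        ≤ (2 : ℝ) ^ (2 : ℝ) ^ ((L : ℝ) / 4) :=
          Real.rpow_le_rpow_of_exponent_le (by norm_num)
            (Real.rpow_le_rpow_of_exponent_le (by norm_num) hexp)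
      _ ≤ (2 : ℝ) ^ ((n : ℝ) - 3) := Real.rpow_le_rpow_of_exponent_le (by norm_num) h2L
      _ = (2 : ℝ) ^ (n - 3) := by
        rw [← Real.rpow_natCast]
        congr 1
        push_cast [Nat.cast_sub (show 3 ≤ n by omega)]
        rfl
  set Q : ℕ := 2 ^ (n - 3) with hQ
  have h8 : (2 : ℕ) ^ n = 8 * Q := by
    have h9 : n = 3 + (n - 3) := by omega
    rw [hQ]
    conv_lhs => rw [h9, pow_add]
    norm_num
  have hfQ : (2 : ℝ) ^ f N ≤ 2 ^ Q := by
    rw [← Real.rpow_natCast]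
    refine Real.rpow_le_rpow_of_exponent_le (by norm_num) ?_
    rw [hQ]
    push_cast
    exact hfn
  have h10 : (3 / 4 : ℝ) ^ (2 ^ n) ≤ (1 / 8) ^ Q := by
    rw [h8, pow_mul]
    exact pow_le_pow_left₀ (by positivity) (by norm_num) Q
  calc (3 / 4 : ℝ) ^ (2 ^ n) * 2 ^ f N ≤ (1 / 8) ^ Q * 2 ^ Q :=
        mul_le_mul h10 hfQ (by positivity) (by positivity)
    _ = (1 / 4 : ℝ) ^ Q := by rw [← mul_pow]; norm_num
    _ ≤ (1 / 4 : ℝ) ^ n2 := by
      refine pow_le_pow_of_le_one (by norm_num) (by norm_num) ?_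
      calc n2 ≤ n - 3 := by omega
        _ ≤ 2 ^ (n - 3) := Nat.lt_two_pow_self.le
    _ ≤ δ := hn2.le

end Pool.Agent.H752.PL
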